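import Pool.Agent.Helper10.SP.GoalsI

/-! # Generic independence of a commutative family of generators (packet GIND) -/

open Complex Metric Set Filter Topology MeasureTheory
open scoped ContDiff ComplexConjugate ComplexOrder Manifold

namespace Pool.Agent.Helper47.SP

open Pool.Agent.Helper95.Lin Pool.Agent.Helper16.Abund Pool.Agent.Helper92.Orb
open Pool.Agent.Helper10.SP

/-! ## Algebra of `hermi` -/

theorem hermi_sum_sum {n m : ℕ} (A : Matrix (Fin n) (Fin n) ℂ) (V : Fin m → Cn n)
    (x y : Fin m → ℝ) :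
    hermi A (∑ k, (x k : ℂ) • V k) (∑ l, (y l : ℂ) • V l) =
      ∑ k, ∑ l, ((x k * y l : ℝ) : ℂ) * hermi A (V k) (V l) := by
  unfold hermi
  simp only [Finset.sum_apply, Pi.smul_apply, smul_eq_mul, map_sum, map_mul, conj_ofReal,
    Finset.mul_sum, Finset.sum_mul]
  have e1 : ∀ i j : Fin n, (∑ l, ∑ k, A i j * ((x k : ℂ) * V k i) * ((y l : ℂ) * conj (V l j))) =
      ∑ k, ∑ l, ((x k * y l : ℝ) : ℂ) * (A i j * V k i * conj (V l j)) := by
    intro i j
    rw [Finset.sum_comm]
    refine Finset.sum_congr rfl fun k _ => Finset.sum_congr rfl fun l _ => ?_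
    push_cast
    ring
  calc _ = ∑ i, ∑ j, ∑ k, ∑ l, ((x k * y l : ℝ) : ℂ) * (A i j * V k i * conj (V l j)) := by
        refine Finset.sum_congr rfl fun i _ => Finset.sum_congr rfl fun j _ => ?_
        rw [← e1 i j]
    _ = ∑ i, ∑ k, ∑ j, ∑ l, ((x k * y l : ℝ) : ℂ) * (A i j * V k i * conj (V l j)) := by
        refine Finset.sum_congr rfl fun i _ => ?_
        rw [Finset.sum_comm]
    _ = ∑ k, ∑ i, ∑ j, ∑ l, ((x k * y l : ℝ) : ℂ) * (A i j * V k i * conj (V l j)) := by
        rw [Finset.sum_comm]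
    _ = _ := by
        refine Finset.sum_congr rfl fun k _ => ?_
        calc _ = ∑ i, ∑ l, ∑ j, ((x k * y l : ℝ) : ℂ) * (A i j * V k i * conj (V l j)) := by
              refine Finset.sum_congr rfl fun i _ => ?_
              rw [Finset.sum_comm]
          _ = ∑ l, ∑ i, ∑ j, ((x k * y l : ℝ) : ℂ) * (A i j * V k i * conj (V l j)) := by
              rw [Finset.sum_comm]

theorem hermi_smul_left {n : ℕ} (A : Matrix (Fin n) (Fin n) ℂ) (a : ℂ) (u v : Cn n) :
    hermi A (a • u) v = a * hermi A u v := by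
  unfold hermi
  simp only [Pi.smul_apply, smul_eq_mul, Finset.mul_sum]
  refine Finset.sum_congr rfl fun i _ => Finset.sum_congr rfl fun j _ => ?_
  ring

/-- Step (1): the imaginary part of a complex relation is a relation. -/
theorem rel_im {n m : ℕ} (Φ : Cn n → ℝ) (z : Cn n)
    (hL : ∀ e, ((lev Φ z e : ℝ) : ℂ) = hermi (LM Φ z) e e) (hp : ∀ e, e ≠ 0 → 0 < lev Φ z e)
    (V : Fin m → Cn n) (hr : ∀ k l, (hermi (LM Φ z) (V k) (V l)).im = 0)
    (lam : Fin m → ℂ) (h : ∑ k, lam k • V k = 0) : ∑ k, ((lam k).im : ℂ) • V k = 0 := by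
  set P := ∑ k, ((lam k).re : ℂ) • V k with hP
  set Q := ∑ k, ((lam k).im : ℂ) • V k with hQ
  have hPQ : P = (-I) • Q := by
    have : P + I • Q = 0 := by
      rw [hP, hQ, Finset.smul_sum, ← Finset.sum_add_distrib, ← h]
      refine Finset.sum_congr rfl fun k _ => ?_
      rw [smul_smul, ← add_smul]
      congr 1
      conv_rhs => rw [← re_add_im (lam k)]
      ring
    rw [neg_smul]
    exact eq_neg_of_add_eq_zero_left this
  have h1 : (hermi (LM Φ z) P Q).im = 0 := by
    rw [hP, hQ, hermi_sum_sum, im_sum]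
    refine Finset.sum_eq_zero fun k _ => ?_
    rw [im_sum]
    refine Finset.sum_eq_zero fun l _ => ?_
    rw [im_ofReal_mul, hr, mul_zero]
  by_contra hne
  have h2 := hp Q hne
  rw [hPQ, hermi_smul_left, ← hL] at h1
  simp at h1
  linarith

/-! ## Real valued holomorphic functions and the identity theorem -/

theorem fderiv_eq_zero_of_real {n : ℕ} {U : Set (Cn n)} (hU : IsOpen U) {f : Cn n → ℂ}
    (hf : DifferentiableOn ℂ f U) (hr : ∀ z ∈ U, (f z).im = 0) {z : Cn n} (hz : z ∈ U) :
    fderiv ℂ f z = 0 := by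
  have hfz : DifferentiableAt ℂ f z := (hf z hz).differentiableAt (hU.mem_nhds hz)
  have him : ∀ v, (fderiv ℂ f z v).im = 0 := by
    intro v
    have h1 : HasFDerivAt f ((fderiv ℂ f z).restrictScalars ℝ) z :=
      hfz.hasFDerivAt.restrictScalars ℝ
    have h2 : HasFDerivAt (fun y => (f y).im)
        (imCLM.comp ((fderiv ℂ f z).restrictScalars ℝ)) z := imCLM.hasFDerivAt.comp z h1
    have h3 : HasFDerivAt (fun y => (f y).im) (0 : Cn n →L[ℝ] ℝ) z := by
      refine (hasFDerivAt_const (0 : ℝ) z).congr_of_eventuallyEq ?_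
      filter_upwards [hU.mem_nhds hz] with y hy using hr y hy
    have h4 := congrArg (fun L : Cn n →L[ℝ] ℝ => L v) (h2.unique h3)
    simpa using h4
  ext v
  have h1 := him v
  have h2 := him (I • v)
  rw [map_smul, smul_eq_mul, I_mul_im] at h2
  simpa using Complex.ext h2 h1

theorem const_of_real {n : ℕ} {c : Cn n} {r : ℝ} {f : Cn n → ℂ}
    (hf : DifferentiableOn ℂ f (ball c r)) (hr : ∀ z ∈ ball c r, (f z).im = 0) {x y : Cn n}
    (hx : x ∈ ball c r) (hy : y ∈ ball c r) : f x = f y := by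
  refine (convex_ball c r).is_const_of_fderivWithin_eq_zero (𝕜 := ℂ) hf ?_ hx hy
  intro z hz
  rw [fderivWithin_of_isOpen isOpen_ball hz]
  exact fderiv_eq_zero_of_real isOpen_ball hf hr hz

/-- The identity theorem on a ball of `ℂⁿ`, by restriction to complex lines. -/
theorem eq_zero_of_eventually {n : ℕ} {c : Cn n} {r : ℝ} {f : Cn n → Cn n}
    (hf : DifferentiableOn ℂ f (ball c r)) {z₀ : Cn n} (hz₀ : z₀ ∈ ball c r)
    (h0 : ∀ᶠ z in 𝓝 z₀, f z = 0) : ∀ z ∈ ball c r, f z = 0 := by
  intro z hz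
  set γ : ℂ → Cn n := fun t => z₀ + t • (z - z₀) with hγ
  have hγd : Differentiable ℂ γ := by
    intro t
    exact (differentiableAt_const _).add (differentiableAt_id.smul_const _)
  set U : Set ℂ := γ ⁻¹' ball c r with hU
  have hUo : IsOpen U := isOpen_ball.preimage hγd.continuous
  have hUc : Convex ℝ U := by
    intro s hs t ht a b ha hb hab
    have : γ (a • s + b • t) = a • γ s + b • γ t := by
      ext i
      simp only [hγ, Pi.add_apply, Pi.smul_apply, Pi.sub_apply, smul_eq_mul, real_smul]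
      have hb' : (a : ℂ) + b = 1 := by exact_mod_cast hab
      linear_combination (-(z₀ i)) * hb'
    change γ (a • s + b • t) ∈ ball c r
    rw [this]
    exact convex_ball c r hs ht ha hb hab
  have hd : DifferentiableOn ℂ (fun t => f (γ t)) U :=
    hf.comp hγd.differentiableOn (fun t ht => ht)
  have ha : AnalyticOnNhd ℂ (fun t => f (γ t)) U := hd.analyticOnNhd hUo
  have h0U : (0 : ℂ) ∈ U := by
    change γ 0 ∈ ball c r
    simpa [hγ] using hz₀
  have h1U : (1 : ℂ) ∈ U := by
    change γ 1 ∈ ball c r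
    simpa [hγ] using hz
  have hev : (fun t => f (γ t)) =ᶠ[𝓝 0] 0 := by
    have hc : Tendsto γ (𝓝 0) (𝓝 z₀) := by
      have := hγd.continuous.tendsto 0
      simpa [hγ] using this
    exact hc.eventually h0
  have := ha.eqOn_zero_of_preconnected_of_eventuallyEq_zero hUc.isPreconnected h0U hev h1U
  simpa [hγ] using this

/-! ## The main step -/

/-- A maximal independent subfamily at a point `z₀`: nearby the other fields are combinations with
holomorphic coefficients. -/
theorem coeffs {n m : ℕ} {U : Set (Cn n)} (hU : IsOpen U) (V : Fin m → Cn n → Cn n)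
    (hV : ∀ k, DifferentiableOn ℂ (V k) U) (S : Finset (Fin m)) {z₀ : Cn n} (hz₀ : z₀ ∈ U)
    (hS : LinearIndepOn ℂ (fun k => V k z₀) (S : Set (Fin m)))
    (hmax : ∀ z ∈ U, ∀ l ∉ S, ¬ LinearIndepOn ℂ (fun k => V k z)
      ((insert l S : Finset (Fin m)) : Set (Fin m)))
    {l : Fin m} (hl : l ∉ S) :
    ∃ r > 0, ball z₀ r ⊆ U ∧ ∃ d : Cn n → Fin m → ℂ,
      (∀ k, DifferentiableOn ℂ (fun z => d z k) (ball z₀ r)) ∧
      (∀ z ∈ ball z₀ r, LinearIndepOn ℂ (fun k => V k z) (S : Set (Fin m)) ∧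
        (∀ k ∉ S, d z k = 0) ∧ ∑ k, d z k • V k z = V l z) := by
  classical
  -- `W z : ℂ^S → ℂⁿ`
  let W : Cn n → ((S → ℂ) →L[ℂ] Cn n) := fun z =>
    ∑ k : S, (ContinuousLinearMap.proj (R := ℂ) (φ := fun _ : S => ℂ) k).smulRight (V k z)
  have hWa : ∀ z x, W z x = ∑ k : S, x k • V k z := by
    intro z x
    simp [W]
  have hWd : DifferentiableOn ℂ W U := by
    have h1 : ∀ k : S, DifferentiableOn ℂ (fun z =>
        (ContinuousLinearMap.proj (R := ℂ) (φ := fun _ : S => ℂ) k).smulRight (V k z)) U := by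
      intro k
      exact ((ContinuousLinearMap.smulRightL ℂ (S → ℂ) (Cn n)
        (ContinuousLinearMap.proj k)).differentiable.differentiableOn.comp (hV k)
          (fun _ _ => mem_univ _))
    have : W = fun z => ∑ k : S,
      (ContinuousLinearMap.proj (R := ℂ) (φ := fun _ : S => ℂ) k).smulRight (V k z) := rfl
    rw [this]
    exact DifferentiableOn.fun_sum fun k _ => h1 k
  -- a left inverse at `z₀`
  have hker : LinearMap.ker (W z₀ : (S → ℂ) →ₗ[ℂ] Cn n) = ⊥ := by
    rw [LinearMap.ker_eq_bot']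
    intro x hx
    have hx' : ∑ k : S, x k • V k z₀ = 0 := by rw [← hWa]; exact hx
    have h1 : LinearIndependent ℂ fun k : S => V k z₀ := hS
    funext k
    exact Fintype.linearIndependent_iff.1 h1 x hx' k
  obtain ⟨L, hL⟩ := LinearMap.exists_leftInverse_of_injective _ hker
  let L' : Cn n →L[ℂ] (S → ℂ) := LinearMap.toContinuousLinearMap L
  have hL' : ∀ x, L' (W z₀ x) = x := by
    intro x
    exact congrArg (fun F : (S → ℂ) →ₗ[ℂ] (S → ℂ) => F x) hL
  let T : Cn n → ((S → ℂ) →L[ℂ] (S → ℂ)) := fun z => L'.comp (W z)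
  have hT0 : T z₀ = 1 := by
    ext x i
    simp [T, hL']
  have hTd : DifferentiableOn ℂ T U := by
    exact ((ContinuousLinearMap.compL ℂ (S → ℂ) (Cn n) (S → ℂ) L').differentiable.differentiableOn.comp
      hWd (fun _ _ => mem_univ _))
  have hTu : ∀ᶠ z in 𝓝 z₀, IsUnit (T z) := by
    have hc : ContinuousAt T z₀ := (hTd.differentiableAt (hU.mem_nhds hz₀)).continuousAt
    refine hc.eventually (Units.isOpen.mem_nhds ?_)
    rw [hT0]
    exact isUnit_one
  obtain ⟨r, hr0, hr⟩ := Metric.eventually_nhds_iff_ball.1 (hTu.and (hU.mem_nhds hz₀))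
  have hrU : ball z₀ r ⊆ U := fun z hz => (hr z hz).2
  refine ⟨r, hr0, hrU, fun z k => if h : k ∈ S then
    (Ring.inverse (T z)) (L' (V l z)) ⟨k, h⟩ else 0, ?_, ?_⟩
  · intro k
    by_cases hk : k ∈ S
    · simp only [hk, dif_pos]
      intro z hz
      refine DifferentiableAt.differentiableWithinAt ?_
      have hu := (hr z hz).1
      have h1 : DifferentiableAt ℂ (fun z => Ring.inverse (T z)) z :=
        (differentiableAt_inverse hu).comp z (hTd.differentiableAt (hU.mem_nhds (hrU hz)))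
      have h2 : DifferentiableAt ℂ (fun z => L' (V l z)) z :=
        L'.differentiableAt.comp z ((hV l).differentiableAt (hU.mem_nhds (hrU hz)))
      have h3 := h1.clm_apply h2
      exact (differentiableAt_pi.1 h3) ⟨k, hk⟩
    · simp only [hk, dif_neg, not_false_eq_true]
      exact differentiableOn_const _
  · intro z hz
    obtain ⟨hu, hzU⟩ := hr z hz
    have hind : LinearIndepOn ℂ (fun k => V k z) (S : Set (Fin m)) := by
      change LinearIndependent ℂ fun k : S => V k z
      rw [Fintype.linearIndependent_iff]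
      intro x hx
      have h1 : T z x = 0 := by
        change L' (W z x) = 0
        rw [hWa, hx, map_zero]
      have h2 : Ring.inverse (T z) (T z x) = x := by
        have := congrArg (fun F : (S → ℂ) →L[ℂ] (S → ℂ) => F x) (Ring.inverse_mul_cancel (T z) hu)
        simpa using this
      rw [h1, map_zero] at h2
      intro k
      rw [← h2]
      rfl
    refine ⟨hind, fun k hk => by simp [hk], ?_⟩
    -- `V l z` is in the span
    have hsp : V l z ∈ Submodule.span ℂ ((fun k => V k z) '' (S : Set (Fin m))) := by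
      by_contra hns
      refine hmax z hzU l hl ?_
      rw [Finset.coe_insert]
      exact (linearIndepOn_insert (by simpa using hl)).2 ⟨hind, hns⟩
    rw [Submodule.mem_span_image_finset_iff_exists_fun] at hsp
    obtain ⟨x, hx⟩ := hsp
    have hx2 : ∑ k : S, x k • V k z = V l z := hx
    have h1 : L' (V l z) = T z x := by
      change _ = L' (W z _)
      rw [hWa, hx2]
    have h2 : Ring.inverse (T z) (L' (V l z)) = x := by
      rw [h1]
      have := congrArg (fun F : (S → ℂ) →L[ℂ] (S → ℂ) => F x)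
        (Ring.inverse_mul_cancel (T z) hu)
      simpa using this
    have h4 : ∀ k : S, (if h : (k : Fin m) ∈ S then
        (Ring.inverse (T z)) (L' (V l z)) ⟨k, h⟩ else 0) = x k := by
      intro k
      rw [dif_pos k.2, h2]
    rw [← hx2, ← Finset.sum_subset (Finset.subset_univ S), ← Finset.sum_coe_sort S]
    · refine Finset.sum_congr rfl fun k _ => ?_
      change (if h : (k : Fin m) ∈ S then
        (Ring.inverse (T z)) (L' (V l z)) ⟨k, h⟩ else 0) • V k z = x k • V k z
      rw [h4 k]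
    · intro k _ hk
      simp [hk]

theorem gind (hLMF : S_LMF) : S_GIND := by
  classical
  intro b N c R P Φ C hA m V hC hr i
  set B2 := ball (c i) 2 with hB2
  have hC1 := hA.Cge
  have hRge := hA.Rge
  have hsub2 : B2 ⊆ Bd c 2 := fun z hz => mem_iUnion.2 ⟨i, hz⟩
  have hsub3 : ball (c i) 3 ⊆ Bd c 3 := fun z hz => mem_iUnion.2 ⟨i, hz⟩
  have hsub23 : B2 ⊆ ball (c i) 3 := ball_subset_ball (by norm_num)
  have hsubR : Bd c 2 ⊆ Bd c R := by
    intro z hz
    obtain ⟨j, hj⟩ := mem_iUnion.1 hz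
    exact mem_iUnion.2 ⟨j, ball_subset_ball (by linarith) hj⟩
  have hopR : IsOpen (Bd c R) := isOpen_iUnion fun j => isOpen_ball
  obtain ⟨-, -, hlm, -⟩ := hLMF (Bd c R) hopR Φ hA.smooth
  have hrel : ∀ z ∈ B2, ∀ lam : Fin m → ℂ, ∑ k, lam k • V k z = 0 →
      ∑ k, ((lam k).im : ℂ) • V k z = 0 := by
    intro z hz lam h
    exact rel_im Φ z (hlm z (hsubR (hsub2 hz))) (hA.pos z (hsubR (hsub2 hz))) (fun k => V k z)
      (fun k l => hr k l z (hsub2 hz)) lam h
  -- maximal `S`
  let F : Finset (Finset (Fin m)) := Finset.univ.filter fun S =>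
    ∃ z ∈ B2, LinearIndepOn ℂ (fun k => V k z) (S : Set (Fin m))
  have hne : F.Nonempty := by
    refine ⟨∅, Finset.mem_filter.2 ⟨Finset.mem_univ _, c i, mem_ball_self (by norm_num), ?_⟩⟩
    simp
  obtain ⟨S, hSF, hSmax⟩ := F.exists_max_image Finset.card hne
  obtain ⟨-, z₀, hz₀, hS⟩ := Finset.mem_filter.1 hSF
  by_cases hall : S = Finset.univ
  · refine ⟨z₀, hz₀, ?_⟩
    rw [hall, Finset.coe_univ, linearIndepOn_univ_iff] at hS
    exact hS
  exfalso
  obtain ⟨l, hl⟩ : ∃ l, l ∉ S := by
    by_contra hcon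
    push Not at hcon
    exact hall (Finset.eq_univ_iff_forall.2 hcon)
  have hmax : ∀ z ∈ B2, ∀ l ∉ S, ¬ LinearIndepOn ℂ (fun k => V k z)
      ((insert l S : Finset (Fin m)) : Set (Fin m)) := by
    intro z hz l hl hcon
    have := hSmax (insert l S) (Finset.mem_filter.2 ⟨Finset.mem_univ _, z, hz, hcon⟩)
    rw [Finset.card_insert_of_notMem hl] at this
    omega
  obtain ⟨r, hr0, hrU, d, hd, hdz⟩ := coeffs (U := B2) isOpen_ball V
    (fun k => (hC.holo k).mono (hsub23.trans hsub3)) S hz₀ hS hmax hl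
  -- the coefficients are real
  have hreal : ∀ z ∈ ball z₀ r, ∀ k, (d z k).im = 0 := by
    intro z hz k
    obtain ⟨hind, hd0, hsum⟩ := hdz z hz
    have h1 : ∑ k, (d z k - if k = l then 1 else 0) • V k z = 0 := by
      simp only [sub_smul, Finset.sum_sub_distrib, hsum, ite_smul, one_smul, zero_smul,
        Finset.sum_ite_eq', Finset.mem_univ, if_true, sub_self]
    have h2 := hrel z (hrU hz) _ h1
    have h3 : ∑ k : S, ((d z k).im : ℂ) • V k z = 0 := by
      have e1 : ∑ k : S, ((d z k).im : ℂ) • V k z = ∑ k ∈ S, ((d z k).im : ℂ) • V k z :=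
        Finset.sum_coe_sort S fun k => ((d z k).im : ℂ) • V k z
      rw [e1, ← h2, Finset.sum_subset (Finset.subset_univ S)]
      · refine Finset.sum_congr rfl fun k _ => ?_
        congr 2
        by_cases hk : k = l
        · simp [hk]
        · simp [hk]
      · intro k _ hk
        rw [hd0 k hk]
        simp
    by_cases hk : k ∈ S
    · have h4 := Fintype.linearIndependent_iff.1
        (show LinearIndependent ℂ fun k : S => V k z from hind) _ h3 ⟨k, hk⟩
      exact_mod_cast h4
    · rw [hd0 k hk]; simp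
  -- so constant
  have hz₀r : z₀ ∈ ball z₀ r := mem_ball_self hr0
  have hconst : ∀ z ∈ ball z₀ r, ∀ k, d z k = ((d z₀ k).re : ℂ) := by
    intro z hz k
    have h1 : d z k = d z₀ k :=
      const_of_real (f := fun z => d z k) (hd k) (fun y hy => hreal y hy k) hz hz₀r
    rw [h1]
    apply Complex.ext
    · simp
    · simp [hreal z₀ hz₀r k]
  let x : Fin m → ℝ := fun k => (d z₀ k).re - if k = l then 1 else 0
  have hev : ∀ᶠ z in 𝓝 z₀, ∑ k, (x k : ℂ) • V k z = 0 := by
    filter_upwards [isOpen_ball.mem_nhds hz₀r] with z hz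
    obtain ⟨-, -, hsum⟩ := hdz z hz
    have : ∀ k, (x k : ℂ) = d z k - if k = l then 1 else 0 := by
      intro k
      rw [hconst z hz k]
      simp only [x]
      split_ifs <;> push_cast <;> ring
    simp only [this, sub_smul, Finset.sum_sub_distrib, hsum, ite_smul, one_smul, zero_smul,
        Finset.sum_ite_eq', Finset.mem_univ, if_true, sub_self]
  have hdiff : DifferentiableOn ℂ (fun z => ∑ k, (x k : ℂ) • V k z) (ball (c i) 3) :=
    DifferentiableOn.fun_sum fun k _ => ((hC.holo k).mono hsub3).fun_const_smul _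
  have hzero := eq_zero_of_eventually hdiff (hsub23 hz₀) hev
  have hx := hC.indep i x hzero
  have hxl : x l = 0 := by rw [hx]; rfl
  have hdl : d z₀ l = 0 := (hdz z₀ hz₀r).2.1 l hl
  simp only [x, hdl] at hxl
  norm_num at hxl

end Pool.Agent.Helper47.SP
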